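import Pool.Agent.L0h29.AL.ArtDefs5

set_option autoImplicit false

namespace Pool.Agent.L0h26.AL4

open CoxeterSystem Pool.Agent.Helper741

variable {B : Type*} {M : CoxeterMatrix B} [Fintype B] [DecidableEq B]
variable {W : Type*} [Group W] (cs : CoxeterSystem M W)

/-- **Matsumoto's theorem** for monoids. -/
theorem matsumoto_monoid {G : Type*} [Monoid G] (f : B → G)
    (hf : ∀ i j, alt (f i) (f j) (M i j) = alt (f j) (f i) (M i j))
    (ω ω' : List B) (h : cs.IsReduced ω) (h' : cs.IsReduced ω')
    (heq : cs.wordProd ω = cs.wordProd ω') : (ω.map f).prod = (ω'.map f).prod := by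
  induction hn : ω.length using Nat.strong_induction_on generalizing ω ω' with
  | _ n ih =>
  have hlen : ω.length = ω'.length := by
    rw [← h.eq, ← h'.eq, heq]
  -- same first letter
  have same : ∀ (i : B) (α β : List B), cs.IsReduced (i :: α) → cs.IsReduced (i :: β) →
      cs.wordProd (i :: α) = cs.wordProd (i :: β) → (i :: α).length = n →
      ((i :: α).map f).prod = ((i :: β).map f).prod := by
    intro i α β hα hβ hαβ hl
    rw [List.map_cons, List.map_cons, List.prod_cons, List.prod_cons]
    congr 1
    rw [cs.wordProd_cons, cs.wordProd_cons] at hαβ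
    apply ih α.length (by rw [← hl]; simp) α β (by simpa using hα.drop 1)
      (by simpa using hβ.drop 1) (mul_left_cancel hαβ) rfl
  match ω, ω' with
  | [], [] => rfl
  | [], _ :: _ => simp at hlen
  | _ :: _, [] => simp at hlen
  | i :: ω₁, j :: ω₂ =>
    by_cases hij : i = j
    · subst hij
      exact same i ω₁ ω₂ h h' heq hn
    · set w := cs.wordProd (i :: ω₁) with hw
      have hwl : cs.length w = n := by rw [hw, h.eq, hn]
      have hdi : cs.length (cs.simple i * w) < cs.length w := by
        have h1 := cs.length_wordProd_le ω₁
        rw [hwl, hw, cs.wordProd_cons, cs.simple_mul_simple_cancel_left]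
        simp only [List.length_cons] at hn
        omega
      have hdj : cs.length (cs.simple j * w) < cs.length w := by
        have h1 := cs.length_wordProd_le ω₂
        rw [hwl, heq, cs.wordProd_cons, cs.simple_mul_simple_cancel_left]
        simp only [List.length_cons] at hn hlen
        omega
      have h0 : M i j ≠ 0 := by
        intro h0
        obtain ⟨u, hu1, hu2⟩ := exists_aw_front cs w (n + 1) i j hij (Or.inl h0) hdi hdj
        have h2 := hu1.eq
        rw [hu2, hwl, List.length_append, aw_length] at h2
        omega
      have h2 := two_le_of_ne M hij h0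
      obtain ⟨u, hu1, hu2⟩ := exists_aw_front cs w (M i j) i j hij (Or.inr le_rfl) hdi hdj
      obtain ⟨v, hv1, hv2⟩ := exists_aw_front cs w (M i j) j i (Ne.symm hij)
        (Or.inr (by rw [M.symmetric j i])) hdj hdi
      obtain ⟨m, hm⟩ : ∃ m, M i j = m + 1 := ⟨M i j - 1, by omega⟩
      have e1 : ((i :: ω₁).map f).prod = ((aw i j (M i j) ++ u).map f).prod := by
        rw [hm, aw_succ, List.cons_append]
        rw [hm, aw_succ, List.cons_append] at hu1 hu2
        exact same i ω₁ _ h hu1 (by rw [hu2]) hn
      have e2 : ((j :: ω₂).map f).prod = ((aw j i (M i j) ++ v).map f).prod := by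
        rw [hm, aw_succ, List.cons_append]
        rw [hm, aw_succ, List.cons_append] at hv1 hv2
        exact same j ω₂ _ h' hv1 (by rw [hv2, ← heq]) (by rw [← hlen, hn])
      have e3 : cs.wordProd u = cs.wordProd v := by
        have h3 := hu2.trans hv2.symm
        rw [cs.wordProd_append, cs.wordProd_append, wordProd_aw, wordProd_aw,
          alt_comm_of_pow (cs.simple_mul_simple_self i) (cs.simple_mul_simple_self j)
            (cs.simple_mul_simple_pow i j)] at h3
        exact mul_left_cancel h3
      have hul : (aw i j (M i j) ++ u).length = n := by rw [← hu1.eq, hu2, hwl]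
      have e4 : (u.map f).prod = (v.map f).prod := by
        apply ih u.length (by rw [List.length_append, aw_length] at hul; omega) u v
          (by simpa using hu1.drop (M i j)) (by simpa using hv1.drop (M i j)) e3 rfl
      rw [e1, e2, List.map_append, List.map_append, List.prod_append, List.prod_append, aw_prod,
        aw_prod, e4, hf i j]


theorem mat.{u, v} : Pool.Agent.L0h29.AL.S_MAT.{u, v} := by
  intro B _ _ M Q _ f hf ω ω' h h' heq
  exact matsumoto_monoid M.toCoxeterSystem f hf ω ω' h h' heq

end Pool.Agent.L0h26.AL4
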