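import Pool.Agent.L0h29.AL.ArtDefs5

set_option autoImplicit false

namespace Pool.Agent.L0h26.AL4

open Pool.Agent.L0h29.AL MulOpposite

variable {B : Type*}

lemma pm_append (M : CoxeterMatrix B) (l l' : List B) :
    pm M (l ++ l') = pm M l * pm M l' := by
  simp [pm, FreeMonoid.ofList_append]

lemma awp_concat (m : ℕ) : ∀ i j : B, awp (m + 1) i j = awp m i j ++ [if Even m then i else j] := by
  induction m with
  | zero => intro i j; simp [awp]
  | succ m ih =>
    intro i j
    rw [awp, ih j i, awp, List.cons_append]
    congr 2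
    by_cases h : Even m
    · simp [h, Nat.even_add_one]
    · simp [h, Nat.even_add_one]

lemma awp_reverse (m : ℕ) : ∀ i j : B,
    (awp m i j).reverse = if Even m then awp m j i else awp m i j := by
  induction m with
  | zero => intro i j; simp [awp]
  | succ m ih =>
    intro i j
    have e : (awp (m + 1) i j).reverse = (awp m j i).reverse ++ [i] := by
      rw [awp, List.reverse_cons]
    rw [e, ih j i, awp_concat, awp_concat]
    by_cases h : Even m
    · simp [h, Nat.even_add_one]
    · simp [h, Nat.even_add_one]

lemma pm_rel (M : CoxeterMatrix B) (i j : B) : pm M (awp (M i j) i j) = pm M (awp (M i j) j i) := by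
  exact PresentedMonoid.mk_eq_mk_of_rel ⟨i, j, rfl, rfl⟩

lemma prod_op (M : CoxeterMatrix B) (l : List B) :
    (l.map fun b => op (pm M [b])).prod = op (pm M l.reverse) := by
  induction l with
  | nil => simp [pm]
  | cons b l ih =>
    rw [List.map_cons, List.prod_cons, ih, List.reverse_cons, pm_append, op_mul]

/-- reversal -/
noncomputable def rv (M : CoxeterMatrix B) : AP M →* (AP M)ᵐᵒᵖ :=
  PresentedMonoid.lift (fun b => op (pm M [b])) (by
    rintro _ _ ⟨i, j, rfl, rfl⟩
    rw [FreeMonoid.lift_ofList, FreeMonoid.lift_ofList, prod_op, prod_op, awp_reverse, awp_reverse]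
    split_ifs <;> rw [pm_rel])

lemma rv_pm (M : CoxeterMatrix B) (l : List B) : rv M (pm M l) = op (pm M l.reverse) := by
  rw [← prod_op]
  induction l with
  | nil => simp [pm]
  | cons b l ih =>
    rw [← List.singleton_append, pm_append, map_mul, ih, List.map_append, List.prod_append]
    congr 1

lemma pm_surj (M : CoxeterMatrix B) (x : AP M) : ∃ l, x = pm M l := by
  induction x using PresentedMonoid.inductionOn with
  | _ a => exact ⟨FreeMonoid.toList a, rfl⟩

lemma rv_injective (M : CoxeterMatrix B) : Function.Injective (rv M) := by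
  intro x y h
  obtain ⟨l, rfl⟩ := pm_surj M x
  obtain ⟨l', rfl⟩ := pm_surj M y
  rw [rv_pm, rv_pm] at h
  have h1 := congrArg (fun z => rv M (unop z)) h
  simp only [unop_op, rv_pm, List.reverse_reverse] at h1
  exact op_injective h1

theorem rcn.{u} : S_LCN.{u} → S_RCN.{u} := by
  intro hL B _ _ M hfin x y z h
  apply rv_injective M
  have h1 := congrArg (fun t => unop (rv M t)) h
  simp only [map_mul, unop_mul] at h1
  exact unop_injective (hL B M hfin _ _ _ h1)

end Pool.Agent.L0h26.AL4
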